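import Mathlib

/-!
# GNS representation of a state of a separable C*-algebra, on `l2` of a countable set
-/

set_option autoImplicit false

open scoped ComplexOrder InnerProductSpace
open Filter Topology

namespace Pool.Agent.H59.GNS

noncomputable section

attribute [local instance] CStarAlgebra.spectralOrder CStarAlgebra.spectralOrderedRing

section pos

variable {A : Type} [NonUnitalCStarAlgebra A]

/-- the positive linear map of a functional which is positive on the squares -/
theorem exists_positive (φ : A →L[ℂ] ℂ)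
    (hp : ∀ a, ∃ r : ℝ, 0 ≤ r ∧ φ (star a * a) = r) :
    ∃ f : A →ₚ[ℂ] ℂ, ∀ a, f a = φ a := by
  refine ⟨PositiveLinearMap.mk₀ φ.toLinearMap ?_, fun a => rfl⟩
  intro a ha
  obtain ⟨b, rfl⟩ := CStarAlgebra.nonneg_iff_eq_star_mul_self.1 ha
  obtain ⟨r, hr, h⟩ := hp b
  have : φ.toLinearMap (star b * b) = (r : ℂ) := h
  rw [this]
  exact_mod_cast hr

/-- a functional which is positive on the squares is bounded by the GNS seminorm -/
theorem norm_sq_le (φ : A →L[ℂ] ℂ) (h1 : ‖φ‖ = 1) (f : A →ₚ[ℂ] ℂ) (hf : ∀ a, f a = φ a)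
    (a : A) : ‖φ a‖ ≤ ‖f.toPreGNS a‖ := by
  have key : ∀ e : A, ‖e‖ ≤ 1 → ‖φ (star e * a)‖ ≤ ‖f.toPreGNS a‖ := by
    intro e he
    have h2 : ⟪f.toPreGNS e, f.toPreGNS a⟫_ℂ = φ (star e * a) := by
      rw [f.preGNS_inner_def]
      simp [hf]
    rw [← h2]
    refine (norm_inner_le_norm _ _).trans ?_
    have h3 : ‖f.toPreGNS e‖ ≤ 1 := by
      have h4 : ((‖f.toPreGNS e‖ ^ 2 : ℝ) : ℂ) = φ (star e * e) := by
        push_cast
        rw [f.preGNS_norm_sq]
        simp [hf]
      have h5 : ‖f.toPreGNS e‖ ^ 2 ≤ 1 := by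
        have h6 : ‖((‖f.toPreGNS e‖ ^ 2 : ℝ) : ℂ)‖ ≤ 1 := by
          rw [h4]
          refine (φ.le_opNorm _).trans ?_
          rw [h1, one_mul, CStarRing.norm_star_mul_self]
          exact mul_le_one₀ he (norm_nonneg _) he
        rwa [Complex.norm_real, Real.norm_of_nonneg (by positivity)] at h6
      nlinarith [norm_nonneg (f.toPreGNS e)]
    calc _ ≤ 1 * ‖f.toPreGNS a‖ := by gcongr
      _ = _ := one_mul _
  have hl := CStarAlgebra.increasingApproximateUnit (A := A)
  have hlim : Tendsto (fun e : A => ‖φ (e * a)‖) (CStarAlgebra.approximateUnit A) (𝓝 ‖φ a‖) :=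
    ((φ.continuous.tendsto _).comp (hl.tendsto_mul_right a)).norm
  refine le_of_tendsto hlim ?_
  filter_upwards [hl.eventually_norm] with e he
  have := key (star e) (by rwa [norm_star])
  rwa [star_star] at this

/-- GNS on some Hilbert space -/
theorem gns_aux (φ : A →L[ℂ] ℂ) (h1 : ‖φ‖ = 1)
    (hp : ∀ a, ∃ r : ℝ, 0 ≤ r ∧ φ (star a * a) = r) :
    ∃ (H : Type) (_ : NormedAddCommGroup H) (_ : InnerProductSpace ℂ H) (_ : CompleteSpace H)
      (π : A →⋆ₙₐ[ℂ] (H →L[ℂ] H)) (ξ : H), ‖ξ‖ = 1 ∧ (∀ a, φ a = ⟪ξ, π a ξ⟫_ℂ) ∧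
      DenseRange (fun a => π a ξ) := by
  obtain ⟨f, hf⟩ := exists_positive φ hp
  -- the functional
  let g₀ : f.PreGNS →L[ℂ] ℂ := LinearMap.mkContinuous (φ.toLinearMap ∘ₗ f.ofPreGNS.toLinearMap) 1
    (fun x => by
      have := norm_sq_le φ h1 f hf (f.ofPreGNS x)
      simpa using this)
  have hg₀ : ∀ a, g₀ (f.toPreGNS a) = φ a := fun a => rfl
  let g : f.GNS →L[ℂ] ℂ := g₀.extend UniformSpace.Completion.toComplL
  have hgc : ∀ x : f.PreGNS, g (x : f.GNS) = g₀ x := by
    intro x
    exact ContinuousLinearMap.extend_eq _ UniformSpace.Completion.denseRange_coe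
      (UniformSpace.Completion.isUniformInducing_coe _) x
  let ξ : f.GNS := (InnerProductSpace.toDual ℂ f.GNS).symm g
  have hξ : ∀ y : f.GNS, ⟪ξ, y⟫_ℂ = g y := fun y => InnerProductSpace.toDual_symm_apply
  have hπ : ∀ a, f.gnsNonUnitalStarAlgHom a ξ = ((f.toPreGNS a : f.PreGNS) : f.GNS) := by
    intro a
    refine ext_inner_left ℂ fun y => ?_
    induction y using UniformSpace.Completion.induction_on with
    | hp => exact isClosed_eq (by fun_prop) (by fun_prop)
    | ih b =>
      have e1 : ⟪(b : f.GNS), f.gnsNonUnitalStarAlgHom a ξ⟫_ℂ =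
          ⟪f.gnsNonUnitalStarAlgHom (star a) (b : f.GNS), ξ⟫_ℂ := by
        rw [map_star, ContinuousLinearMap.star_eq_adjoint,
          ContinuousLinearMap.adjoint_inner_left]
      rw [e1, ← inner_conj_symm, hξ, f.gnsNonUnitalStarAlgHom_apply_coe, hgc,
        UniformSpace.Completion.inner_coe, f.preGNS_inner_def]
      have e2 : f.leftMulMapPreGNS (star a) b = f.toPreGNS (star a * f.ofPreGNS b) := rfl
      rw [e2, hg₀, hf, f.ofPreGNS_toPreGNS, ← hf (star a * f.ofPreGNS b)]
      have e3 : (starRingEnd ℂ) (f (star a * f.ofPreGNS b)) = f (star (star a * f.ofPreGNS b)) := by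
        rw [map_star]; rfl
      rw [e3, star_mul, star_star, hf]
  have hdense : DenseRange (fun a => f.gnsNonUnitalStarAlgHom a ξ) := by
    have : (fun a => f.gnsNonUnitalStarAlgHom a ξ) =
        (fun x : f.PreGNS => (x : f.GNS)) ∘ f.toPreGNS := funext hπ
    rw [this]
    exact UniformSpace.Completion.denseRange_coe.comp f.toPreGNS.surjective.denseRange
      (UniformSpace.Completion.continuous_coe _)
  have hφ : ∀ a, φ a = ⟪ξ, f.gnsNonUnitalStarAlgHom a ξ⟫_ℂ := by
    intro a
    rw [hπ, hξ, hgc, hg₀]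
  have hle : ‖ξ‖ ≤ 1 := by
    have e1 : ‖ξ‖ = ‖g‖ := LinearIsometryEquiv.norm_map _ _
    rw [e1]
    refine ContinuousLinearMap.opNorm_le_bound _ zero_le_one fun y => ?_
    induction y using UniformSpace.Completion.induction_on with
    | hp => exact isClosed_le (by fun_prop) (by fun_prop)
    | ih b =>
      rw [hgc, UniformSpace.Completion.norm_coe, one_mul]
      exact norm_sq_le φ h1 f hf (f.ofPreGNS b)
  have hge : 1 ≤ ‖ξ‖ ^ 2 := by
    rw [← h1]
    refine ContinuousLinearMap.opNorm_le_bound _ (by positivity) fun a => ?_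
    rw [hφ a]
    calc _ ≤ ‖ξ‖ * ‖f.gnsNonUnitalStarAlgHom a ξ‖ := norm_inner_le_norm _ _
      _ ≤ ‖ξ‖ * (‖f.gnsNonUnitalStarAlgHom a‖ * ‖ξ‖) := by
        gcongr
        exact ContinuousLinearMap.le_opNorm _ _
      _ ≤ ‖ξ‖ * (‖a‖ * ‖ξ‖) := by
        gcongr
        exact NonUnitalStarAlgHom.norm_apply_le _ _
      _ = _ := by ring
  refine ⟨f.GNS, inferInstance, inferInstance, inferInstance, f.gnsNonUnitalStarAlgHom, ξ, ?_,
    hφ, hdense⟩
  nlinarith [norm_nonneg ξ]

end pos

section sep

/-- an orthonormal set of a separable space is countable -/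
theorem countable_of_orthonormal {H : Type} [NormedAddCommGroup H] [InnerProductSpace ℂ H]
    [TopologicalSpace.SeparableSpace H] {ι : Type} {v : ι → H} (hv : Orthonormal ℂ v) :
    Countable ι := by
  have hd : ∀ i j, i ≠ j → (1 : ℝ) ≤ dist (v i) (v j) := by
    intro i j hij
    have h1 : ‖v i - v j‖ ^ 2 = 2 := by
      have := @norm_sub_sq ℂ H _ _ _ (v i) (v j)
      rw [this, hv.2 hij, hv.1 i, hv.1 j]
      norm_num
    rw [dist_eq_norm]
    nlinarith [norm_nonneg (v i - v j)]
  have h2 : Pairwise (Function.onFun Disjoint fun i => Metric.ball (v i) (1 / 2)) := by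
    intro i j hij
    refine Metric.ball_disjoint_ball ?_
    have := hd i j hij
    linarith
  exact Pairwise.countable_of_isOpen_disjoint h2 (fun i => Metric.isOpen_ball)
    fun i => ⟨v i, Metric.mem_ball_self (by norm_num)⟩

/-- GNS on `l2` of a countable type -/
theorem gns {A : Type} [NonUnitalCStarAlgebra A] [TopologicalSpace.SeparableSpace A]
    (φ : A →L[ℂ] ℂ) (h1 : ‖φ‖ = 1)
    (hp : ∀ a, ∃ r : ℝ, 0 ≤ r ∧ φ (star a * a) = r) :
    ∃ (κ : Type) (_ : Countable κ)
      (π : A →⋆ₙₐ[ℂ] (lp (fun _ : κ => ℂ) 2 →L[ℂ] lp (fun _ : κ => ℂ) 2))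
      (ξ : lp (fun _ : κ => ℂ) 2), ‖ξ‖ = 1 ∧ (∀ a, φ a = ⟪ξ, π a ξ⟫_ℂ) ∧
      DenseRange (fun a => π a ξ) := by
  obtain ⟨H, i1, i2, i3, π, ξ, hξ, hφ, hd⟩ := gns_aux φ h1 hp
  have hcont : Continuous (fun a => π a ξ) := by
    let L : A →ₗ[ℂ] H :=
      { toFun := fun a => π a ξ
        map_add' := fun a b => by rw [map_add]; rfl
        map_smul' := fun c a => by rw [map_smul]; rfl }
    refine (L.mkContinuous 1 fun a => ?_).continuous
    calc ‖π a ξ‖ ≤ ‖π a‖ * ‖ξ‖ := ContinuousLinearMap.le_opNorm _ _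
      _ ≤ ‖a‖ * 1 := by
        rw [hξ]
        gcongr
        exact NonUnitalStarAlgHom.norm_apply_le _ _
      _ = 1 * ‖a‖ := by ring
  have hsep : TopologicalSpace.SeparableSpace H := hd.separableSpace hcont
  obtain ⟨w, b, hb⟩ := exists_hilbertBasis ℂ H
  have hc : Countable w := countable_of_orthonormal b.orthonormal
  let e : H ≃ₗᵢ[ℂ] lp (fun _ : w => ℂ) 2 := b.repr
  let c : (H →L[ℂ] H) →⋆ₙₐ[ℂ] (lp (fun _ : w => ℂ) 2 →L[ℂ] lp (fun _ : w => ℂ) 2) :=
    { toFun := fun x => e.conjStarAlgEquiv x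
      map_smul' := fun m x => map_smul _ m x
      map_zero' := map_zero _
      map_add' := map_add _
      map_mul' := map_mul _
      map_star' := map_star _ }
  refine ⟨w, hc, c.comp π, e ξ, ?_, ?_, ?_⟩
  · rw [e.norm_map, hξ]
  · intro a
    have : (c.comp π) a (e ξ) = e (π a ξ) := by
      change e (π a (e.symm (e ξ))) = _
      rw [e.symm_apply_apply]
    rw [this, e.inner_map_map, hφ]
  · have : (fun a => (c.comp π) a (e ξ)) = e ∘ fun a => π a ξ := by
      funext a
      change e (π a (e.symm (e ξ))) = _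
      rw [e.symm_apply_apply]
      rfl
    rw [this]
    exact e.surjective.denseRange.comp hd e.continuous

/-- the GNS construction on a Hilbert space `ℓ²(κ)` -/
theorem gns' {A : Type} [NonUnitalCStarAlgebra A] (φ : A →L[ℂ] ℂ) (h1 : ‖φ‖ = 1)
    (hp : ∀ a, ∃ r : ℝ, 0 ≤ r ∧ φ (star a * a) = r) :
    ∃ (κ : Type) (π : A →⋆ₙₐ[ℂ] (lp (fun _ : κ => ℂ) 2 →L[ℂ] lp (fun _ : κ => ℂ) 2))
      (ξ : lp (fun _ : κ => ℂ) 2), ‖ξ‖ = 1 ∧ (∀ a, φ a = ⟪ξ, π a ξ⟫_ℂ) ∧
      DenseRange (fun a => π a ξ) := by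
  obtain ⟨H, i1, i2, i3, π, ξ, hξ, hφ, hd⟩ := gns_aux φ h1 hp
  obtain ⟨w, b, hb⟩ := exists_hilbertBasis ℂ H
  let e : H ≃ₗᵢ[ℂ] lp (fun _ : w => ℂ) 2 := b.repr
  let c : (H →L[ℂ] H) →⋆ₙₐ[ℂ] (lp (fun _ : w => ℂ) 2 →L[ℂ] lp (fun _ : w => ℂ) 2) :=
    { toFun := fun x => e.conjStarAlgEquiv x
      map_smul' := fun m x => map_smul _ m x
      map_zero' := map_zero _
      map_add' := map_add _
      map_mul' := map_mul _
      map_star' := map_star _ }
  refine ⟨w, c.comp π, e ξ, ?_, ?_, ?_⟩
  · rw [e.norm_map, hξ]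
  · intro a
    have : (c.comp π) a (e ξ) = e (π a ξ) := by
      change e (π a (e.symm (e ξ))) = _
      rw [e.symm_apply_apply]
    rw [this, e.inner_map_map, hφ]
  · have : (fun a => (c.comp π) a (e ξ)) = e ∘ fun a => π a ξ := by
      funext a
      change e (π a (e.symm (e ξ))) = _
      rw [e.symm_apply_apply]
      rfl
    rw [this]
    exact e.surjective.denseRange.comp hd e.continuous

end sep

section vec

/-- a vector functional of a representation with a non degenerate vector is a state -/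
theorem vec_state {A : Type} [NonUnitalCStarAlgebra A] {H : Type} [NormedAddCommGroup H]
    [InnerProductSpace ℂ H] [CompleteSpace H] (π : A →⋆ₙₐ[ℂ] (H →L[ℂ] H))
    (hd : Dense (Submodule.span ℂ {y : H | ∃ a x, π a x = y} : Set H)) (ξ : H) (hξ : ‖ξ‖ = 1)
    (φ : A →L[ℂ] ℂ) (hφ : ∀ a, φ a = ⟪ξ, π a ξ⟫_ℂ) :
    ‖φ‖ = 1 ∧ ∀ a, ∃ r : ℝ, 0 ≤ r ∧ φ (star a * a) = r := by
  constructor
  · refine le_antisymm ?_ ?_
    · refine ContinuousLinearMap.opNorm_le_bound _ zero_le_one fun a => ?_
      rw [hφ a]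
      calc _ ≤ ‖ξ‖ * ‖π a ξ‖ := norm_inner_le_norm _ _
        _ ≤ ‖ξ‖ * (‖π a‖ * ‖ξ‖) := by
          gcongr
          exact ContinuousLinearMap.le_opNorm _ _
        _ ≤ ‖ξ‖ * (‖a‖ * ‖ξ‖) := by
          gcongr
          exact NonUnitalStarAlgHom.norm_apply_le _ _
        _ = _ := by rw [hξ]; ring
    · -- approximate unit
      have hl := CStarAlgebra.increasingApproximateUnit (A := A)
      have hT : ∀ y : H, Tendsto (fun e : A => π e y) (CStarAlgebra.approximateUnit A) (𝓝 y) := by
        have hbd : ∀ᶠ e in CStarAlgebra.approximateUnit A, ‖π e‖ ≤ 1 := by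
          filter_upwards [hl.eventually_norm] with e he
          exact (NonUnitalStarAlgHom.norm_apply_le _ _).trans he
        let S : Submodule ℂ H :=
          { carrier := {y | Tendsto (fun e : A => π e y) (CStarAlgebra.approximateUnit A) (𝓝 y)}
            add_mem' := by
              intro x y hx hy
              have hx' : Tendsto (fun e : A => π e x) (CStarAlgebra.approximateUnit A) (𝓝 x) := hx
              have hy' : Tendsto (fun e : A => π e y) (CStarAlgebra.approximateUnit A) (𝓝 y) := hy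
              change Tendsto (fun e : A => π e (x + y)) (CStarAlgebra.approximateUnit A) (𝓝 (x + y))
              exact (hx'.add hy').congr fun e => (map_add (π e) x y).symm
            zero_mem' := by
              have : Tendsto (fun _ : A => (0 : H)) (CStarAlgebra.approximateUnit A) (𝓝 0) :=
                tendsto_const_nhds
              change Tendsto (fun e : A => π e 0) (CStarAlgebra.approximateUnit A) (𝓝 0)
              simpa only [map_zero] using this
            smul_mem' := by
              intro c x hx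
              have hx' : Tendsto (fun e : A => π e x) (CStarAlgebra.approximateUnit A) (𝓝 x) := hx
              change Tendsto (fun e : A => π e (c • x)) (CStarAlgebra.approximateUnit A) (𝓝 (c • x))
              exact (hx'.const_smul c).congr fun e => (map_smul (π e) c x).symm }
        have hS : (Submodule.span ℂ {y : H | ∃ a x, π a x = y}) ≤ S := by
          rw [Submodule.span_le]
          rintro _ ⟨a, x, rfl⟩
          have h1 : Tendsto (fun e : A => π (e * a) x) (CStarAlgebra.approximateUnit A)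
              (𝓝 (π a x)) := by
            have hc : Continuous fun b : A => π b x := by
              let L : A →ₗ[ℂ] H :=
                { toFun := fun a => π a x
                  map_add' := fun a b => by rw [map_add]; rfl
                  map_smul' := fun c a => by rw [map_smul]; rfl }
              refine (L.mkContinuous ‖x‖ fun a => ?_).continuous
              calc ‖π a x‖ ≤ ‖π a‖ * ‖x‖ := ContinuousLinearMap.le_opNorm _ _
                _ ≤ ‖a‖ * ‖x‖ := by
                  gcongr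
                  exact NonUnitalStarAlgHom.norm_apply_le _ _
                _ = ‖x‖ * ‖a‖ := by ring
            exact (hc.tendsto _).comp (hl.tendsto_mul_right a)
          change Tendsto (fun e : A => π e (π a x)) _ _
          refine h1.congr fun e => ?_
          rw [map_mul]
          rfl
        intro y
        rw [Metric.tendsto_nhds]
        intro ε hε
        obtain ⟨z, hz, hyz⟩ := hd.exists_dist_lt y (show (0 : ℝ) < ε / 3 by positivity)
        have h1 : Tendsto (fun e : A => π e z) (CStarAlgebra.approximateUnit A) (𝓝 z) := hS hz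
        rw [Metric.tendsto_nhds] at h1
        filter_upwards [h1 (ε / 3) (by positivity), hbd] with e he1 he2
        have h2 : dist (π e y) (π e z) ≤ dist y z := by
          rw [dist_eq_norm, dist_eq_norm, ← map_sub]
          calc _ ≤ ‖π e‖ * ‖y - z‖ := ContinuousLinearMap.le_opNorm _ _
            _ ≤ 1 * ‖y - z‖ := by gcongr
            _ = _ := one_mul _
        calc dist (π e y) y ≤ dist (π e y) (π e z) + dist (π e z) z + dist z y :=
              dist_triangle4 _ _ _ _
          _ < ε / 3 + ε / 3 + ε / 3 := by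
            rw [dist_comm z y]
            gcongr
            exact h2.trans_lt hyz
          _ = ε := by ring
      have h1 : Tendsto (fun e : A => ‖φ e‖) (CStarAlgebra.approximateUnit A) (𝓝 1) := by
        have h2 : Tendsto (fun e : A => ⟪ξ, π e ξ⟫_ℂ) (CStarAlgebra.approximateUnit A)
            (𝓝 ⟪ξ, ξ⟫_ℂ) := tendsto_const_nhds.inner (hT ξ)
        have h3 : ‖(⟪ξ, ξ⟫_ℂ)‖ = 1 := by
          rw [inner_self_eq_norm_sq_to_K, hξ]; simp
        have h4 := h2.norm
        rw [h3] at h4
        refine h4.congr fun e => ?_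
        rw [hφ]
      refine le_of_tendsto h1 ?_
      filter_upwards [hl.eventually_norm] with e he
      calc ‖φ e‖ ≤ ‖φ‖ * ‖e‖ := φ.le_opNorm _
        _ ≤ ‖φ‖ * 1 := by gcongr
        _ = _ := mul_one _
  · intro a
    refine ⟨‖π a ξ‖ ^ 2, by positivity, ?_⟩
    rw [hφ, map_mul, map_star, mul_apply_eq_comp,
      ContinuousLinearMap.star_eq_adjoint, ContinuousLinearMap.adjoint_inner_right,
      inner_self_eq_norm_sq_to_K]
    simp

end vec

end

end Pool.Agent.H59.GNS
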